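import Pool.Agent.N397.HO.Summ

/-!
# Ordinary primes for summands of the cohomology of hyperkähler varieties and of their fibrations

Let `F` be a number field, `X` projective over `F`, `U` a smooth dense open subscheme, `π : 𝒴 → U` smooth
and projective. Suppose that `𝒴` has a smooth projective compactification `Y → X` which is built from
hyperkähler varieties (of any deformation type), abelian surfaces and varieties which are potentially
ordinary at almost all places (e.g. of CM type) by products, projective bundles, blow-ups and
surjective images; for example `Y` is a hyperkähler variety and `Y → X` a Lagrangian fibration, or `𝒴` is a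
hyperkähler variety and `U = X` is a point. By the decomposition theorem the intersection cohomology
`H_ℓ = H^k(X, j_{!*} R^i π_* ℚ_ℓ)` is a direct summand of `H^{i + k}(Y)`, and so is the realisation `R_ℓ`
of every summand `R = e M` of the motive `M` of `H_ℓ`.

**Theorem.** For every finite list of such summands `R`, in arbitrary degrees, such that outside of a
finite set of places the Newton polygons of `R` and of its complement lie on or above the Hodge-Tate
polygons (this is known if the projectors are algebraic cycles), the primes `𝔭` such that, for all
`R` in the list, all `ℓ` with `𝔭 ∤ ℓ` and all `τ`, `Newton_τ (Frob_𝔭, R_ℓ) = HP (R_ℓ)`, have positive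
lower density.

Proof: see `MP_adc574_ag.HyperkaehlerVarieties` for the common ordinary places of the hyperkähler
varieties. If `H^n(Y)` is ordinary, `H^n(Y) = R ⊕ R'` and the Newton polygons of both parts lie above the
Hodge polygons, then the sums of the squares of the slopes show that both parts are ordinary.
-/

set_option autoImplicit false

namespace Pool.Agent.Results.MP_0dad22_ag.BuiltFromHyperkaehler

open Pool.Agent.N397.HO Pool.Agent.W528.Ord NumberField IsDedekindDomain

/-- **Ordinary primes for summands of the cohomology of varieties built from hyperkähler varieties.**
Let `V` be a variety over the number field `F` which is built from hyperkähler varieties and potentially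
almost everywhere ordinary ones, and `R k` finitely many direct summands of its cohomology in the
degrees `m k`. The places `v` such that for all `k` and all pairs `t = (ℓ, τ)` the Newton polygon of the
`ℓ`-adic realisation of `R k` with respect to `τ` is the Hodge-Tate polygon have positive lower
density; in particular there are infinitely many. -/
theorem result {F : Type} [Field F] [NumberField F] {ℓ : ℕ} [Fact ℓ.Prime] (V : Fam (𝓞 F))
    (hV : Built ℓ V) {κ : Type} [Finite κ] (m : κ → ℕ) (R : ∀ k, Summand V (m k)) :
    0 < lowerDensity fun v : HeightOneSpectrum (𝓞 F) =>
      ∀ k, v ∉ (R k).bad ∧ ∀ t, (R k).ok v t → (R k).newton v t = (R k).hodge :=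
  summands_main hV m R

end Pool.Agent.Results.MP_0dad22_ag.BuiltFromHyperkaehler
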