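import Pool.Agent.N817.PL.Main
import Pool.Agent.N817.OP.Kron

/-!
# Supersingular primes have density zero unless the representation is potentially abelian

`K` is a number field and `ρ : G_K → GL_n(F)` a continuous semisimple representation over a complete
extension `F` of `ℚ_p`, for example the `p`-adic realisation of a summand `R` of a motive as in the
problem. We fix an embedding `j` of the field of all algebraic numbers into an algebraic closure of `F`.

A place `v` of `K`, of residue characteristic `r`, is called supersingular for `ρ` if, for some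
Frobenius element `g` at `v`, the eigenvalues of `ρ(g)` are algebraic numbers, all of the same weight,
units outside `r`, and for every embedding `τ` of the field of all algebraic numbers into an algebraic
closure of `ℚ_r` they all have the same absolute value: the Newton polygon of `Frob_v` is a straight
line for every `τ`. (For motives all conditions but the last one are automatic for almost all `v`. The
condition is the same for `g` and `g⁻¹`, so it does not matter whether arithmetic or geometric
Frobenius elements are taken.)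

Theorem. Either `ρ` is potentially abelian, or the set of the supersingular places of `K` has natural
density zero. More generally, if `ρ` is not potentially abelian then, for all continuous characters
`ψ_1, ..., ψ_k : G_K → Fˣ` and all `d ≥ 1`, the set of the places `v` with a Frobenius element `g` such
that every eigenvalue `a` of `ρ(g)` is, up to a root of unity, a `d`-th root of one of the numbers
`ψ_i(g)` has density zero.

Nothing is assumed on the ramification of `ρ` and on its restriction to the places above `p`.

For summands `R` of motives with algebraic idempotents the problem file quotes that there are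
infinitely many primes at which Newton and Hodge polygon agree if `R` is potentially abelian. So for
these `R`, if `R_ℓ` is semisimple, Q1 can fail only if the primes of the opposite kind, at which the
Newton polygon is a straight line, have density zero.

Proof. The ratios of the eigenvalues at a supersingular place are algebraic numbers all of whose absolute
values are `1`, so they are roots of unity by Kronecker's theorem, and the eigenvalues are, up to roots
of unity, `n`-th roots of the value of the determinant. The theorem on characters is proved in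
`Pool.Agent.N817.PL`: (1) if the places have positive upper density then the condition holds on a coset
`z U` of an open normal subgroup (theorem of Chebotarev for closed sets, from the library, and a
noetherian induction); (2) so the traces of the powers of `ρ(z w)` are constant for `w` near `1` in the
commutator subgroup of `U`; (3) the second derivative of this says that `z` acts without fixed points on
the last term of the derived series of the Lie algebra of `ρ(U)`, modulo the radical of its trace form,
and by the theorems of Borel-Mostow and Kreknin and the criterion of Cartan the Lie algebra is solvable;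
(4) as `ρ` is semisimple it is then abelian on an open subgroup.
-/

set_option autoImplicit false

namespace Pool.Agent.Results.MP_0dad22_ag.SupersingularPrimes

open NumberField IsDedekindDomain Filter Matrix Polynomial

/-- the field of all algebraic numbers -/
abbrev Qbar : Type := AlgebraicClosure ℚ

/-- the absolute Galois group of the field `K`, with the Krull topology -/
abbrev AbsGal (K : Type) [Field K] : Type := Gal(AlgebraicClosure K/K)

/-- `g` is an (arithmetic) Frobenius element at a maximal ideal `Q` of the ring of all algebraic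
integers which lies above the finite place `v` of `K`. -/
def IsFrobenius {K : Type} [Field K] [NumberField K] (v : HeightOneSpectrum (𝓞 K))
    (g : AbsGal K) : Prop :=
  ∃ Q : Ideal (𝓞 (AlgebraicClosure K)), Q.IsMaximal ∧
    Q.comap (algebraMap (𝓞 K) (𝓞 (AlgebraicClosure K))) = v.asIdeal ∧
    ∀ x : 𝓞 (AlgebraicClosure K), g • x - x ^ Ideal.absNorm v.asIdeal ∈ Q

/-- the finite places of `K` whose norm is at most `x` -/
def placesUpTo (K : Type) [Field K] [NumberField K] (x : ℕ) : Set (HeightOneSpectrum (𝓞 K)) :=
  {v | Ideal.absNorm v.asIdeal ≤ x}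

/-- The set `P` of finite places of `K` has natural density zero. (The number of all places of norm at
most `x` is asymptotic to the number `Nat.primeCounting x` of the primes up to `x`.) -/
def DensityZero {K : Type} [Field K] [NumberField K] (P : Set (HeightOneSpectrum (𝓞 K))) : Prop :=
  Tendsto (fun x : ℕ => ((placesUpTo K x ∩ P).ncard : ℝ) / Nat.primeCounting x) atTop (nhds 0)

section
variable {K F : Type} [Field K] [Field F] {n : ℕ}

/-- the matrix of `g` -/
noncomputable def mat (ρ : AbsGal K →* GL (Fin n) F) (g : AbsGal K) : Matrix (Fin n) (Fin n) F :=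
  (ρ g : GL (Fin n) F)

/-- `U` is a subrepresentation of `ρ`. -/
def Stable (ρ : AbsGal K →* GL (Fin n) F) (U : Submodule F (Fin n → F)) : Prop :=
  ∀ g, ∀ x ∈ U, mat ρ g *ᵥ x ∈ U

/-- `ρ` is semisimple (for example irreducible). -/
def Semisimple (ρ : AbsGal K →* GL (Fin n) F) : Prop :=
  ∀ U, Stable ρ U → ∃ U', Stable ρ U' ∧ IsCompl U U'

/-- `a`, in an algebraic closure of `F`, is an eigenvalue of `ρ(g)`. -/
def IsEigenvalue (ρ : AbsGal K →* GL (Fin n) F) (g : AbsGal K) (a : AlgebraicClosure F) : Prop :=
  ((mat ρ g).charpoly.map (algebraMap F (AlgebraicClosure F))).IsRoot a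

/-- Every eigenvalue `a` of `ρ(g)` satisfies `a ^ (d m) = ψ_i(g) ^ m` for some `i` and some `m > 0`
(which may depend on `g` and `a`). -/
def RootsOf {k : ℕ} (ρ : AbsGal K →* GL (Fin n) F) (ψ : Fin k → (AbsGal K →* Fˣ)) (d : ℕ)
    (g : AbsGal K) : Prop :=
  ∀ a : AlgebraicClosure F, IsEigenvalue ρ g a →
    ∃ i : Fin k, ∃ m : ℕ, 0 < m ∧
      a ^ (d * m) = algebraMap F (AlgebraicClosure F) (ψ i g : Fˣ) ^ m

/-- The eigenvalues of `ρ(g)` are (the images under `j` of) algebraic numbers, they have the same weight
`w` relative to `q` (the absolute value `q ^ (w / 2)` in every embedding into `ℂ`) and they are units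
outside the prime number `r`. -/
structure Pure (j : Qbar →+* AlgebraicClosure F) (ρ : AbsGal K →* GL (Fin n) F) (g : AbsGal K)
    (q r : ℕ) : Prop where
  algebraic : ∀ a, IsEigenvalue ρ g a → ∃ α : Qbar, j α = a
  weight : ∃ w : ℤ, ∀ α : Qbar, IsEigenvalue ρ g (j α) → ∀ σ : Qbar →+* ℂ, ‖σ α‖ ^ 2 = (q : ℝ) ^ w
  unit : ∀ α : Qbar, IsEigenvalue ρ g (j α) → ∀ (r' : ℕ) [Fact r'.Prime], r' ≠ r →
    ∀ τ : Qbar →+* PadicAlgCl r', ‖τ α‖ = 1

/-- For every embedding `τ` of the field of all algebraic numbers into an algebraic closure of `ℚ_r` the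
eigenvalues of `ρ(g)` all have the same absolute value: the Newton polygon of `ρ(g)` with respect to
`τ` is a straight line. -/
def Straight (j : Qbar →+* AlgebraicClosure F) (ρ : AbsGal K →* GL (Fin n) F) (g : AbsGal K)
    (r : ℕ) [Fact r.Prime] : Prop :=
  ∀ τ : Qbar →+* PadicAlgCl r, ∀ α β : Qbar, IsEigenvalue ρ g (j α) → IsEigenvalue ρ g (j β) →
    ‖τ α‖ = ‖τ β‖

/-- The finite place `v`, of residue characteristic `r`, is supersingular for `ρ`: for some Frobenius
element `g` at `v` the eigenvalues of `ρ(g)` are pure and the Newton polygon is a straight line for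
every `τ`. -/
def Supersingular [NumberField K] (j : Qbar →+* AlgebraicClosure F) (ρ : AbsGal K →* GL (Fin n) F)
    (v : HeightOneSpectrum (𝓞 K)) : Prop :=
  ∃ g, IsFrobenius v g ∧ ∃ (r : ℕ) (_ : Fact r.Prime), (r : 𝓞 K) ∈ v.asIdeal ∧
    Pure j ρ g (Ideal.absNorm v.asIdeal) r ∧ Straight j ρ g r

/-- `ρ` is potentially abelian: its restriction to an open normal subgroup has commutative image. -/
def PotentiallyAbelian (ρ : AbsGal K →* GL (Fin n) F) : Prop :=
  ∃ U : Subgroup (AbsGal K), U.Normal ∧ IsOpen (U : Set (AbsGal K)) ∧
    ∀ u ∈ U, ∀ v ∈ U, ρ u * ρ v = ρ v * ρ u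

end

/-- there are finitely many places of bounded norm -/
lemma finite_places (K : Type) [Field K] [NumberField K] (x : ℕ) : (placesUpTo K x).Finite := by
  refine Set.Finite.of_finite_image (f := fun v => v.asIdeal) ?_
    (fun v _ w _ h => HeightOneSpectrum.ext h)
  refine (Ideal.finite_setOfPred_absNorm_le x).subset ?_
  rintro _ ⟨v, hv, rfl⟩
  exact hv

/-- a set of places which is not of density zero has positive upper density -/
lemma frequently_of_not {K : Type} [Field K] [NumberField K] (P : Set (HeightOneSpectrum (𝓞 K)))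
    (h : ¬ DensityZero P) : ∃ δ : ℝ, 0 < δ ∧ ∃ᶠ x : ℕ in atTop,
      δ * Nat.primeCounting x ≤ ((placesUpTo K x ∩ P).ncard : ℝ) := by
  unfold DensityZero at h
  rw [Metric.tendsto_nhds] at h
  push Not at h
  obtain ⟨δ, hδ, h⟩ := h
  refine ⟨δ, hδ, h.mono fun x hx => ?_⟩
  rw [Real.dist_eq, sub_zero, abs_of_nonneg (by positivity)] at hx
  rcases (Nat.cast_nonneg (Nat.primeCounting x) : (0 : ℝ) ≤ (Nat.primeCounting x : ℝ)).eq_or_lt with h0 | h0
  · rw [← h0, mul_zero]
    positivity
  · rwa [le_div_iff₀ h0] at hx

/-- the eigenvalues at a supersingular place are roots of the determinant, up to roots of unity -/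
lemma roots_of_supersingular {K F : Type} [Field K] [NumberField K] [Field F] {n : ℕ}
    (j : Qbar →+* AlgebraicClosure F) (ρ : AbsGal K →* GL (Fin n) F) {g : AbsGal K} {q r : ℕ}
    [Fact r.Prime] (hp : Pure j ρ g q r) (hs : Straight j ρ g r) :
    RootsOf (k := 1) ρ (fun _ => Matrix.GeneralLinearGroup.det.comp ρ) n g := by
  classical
  intro a ha
  refine ⟨0, ?_⟩
  obtain ⟨w, hw⟩ := hp.weight
  obtain ⟨χ, hχ⟩ : ∃ χ, χ = (mat ρ g).charpoly.map (algebraMap F (AlgebraicClosure F)) := ⟨_, rfl⟩
  have hm : χ.Monic := by rw [hχ]; exact (Matrix.charpoly_monic _).map _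
  have hchar : χ = ((mat ρ g).map (algebraMap F (AlgebraicClosure F))).charpoly := by
    rw [hχ, Matrix.charpoly_map]
  -- eigenvalues are not zero
  have hdet : ((mat ρ g).map (algebraMap F (AlgebraicClosure F))).det = χ.roots.prod := by
    rw [hchar]
    exact Matrix.det_eq_prod_roots_charpoly_of_splits (IsAlgClosed.splits _)
  have hdet' : ((mat ρ g).map (algebraMap F (AlgebraicClosure F))).det =
      algebraMap F (AlgebraicClosure F) ((Matrix.GeneralLinearGroup.det (ρ g) : Fˣ) : F) := by
    rw [← RingHom.mapMatrix_apply, ← RingHom.map_det]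
    rfl
  have hprod : χ.roots.prod ≠ 0 := by
    rw [← hdet, hdet']
    exact (_root_.map_ne_zero _).mpr (Units.ne_zero _)
  have hroot : ∀ b ∈ χ.roots, b ≠ 0 ∧ IsEigenvalue ρ g b := by
    intro b hb
    refine ⟨?_, ?_⟩
    · rintro rfl
      exact hprod (Multiset.prod_eq_zero hb)
    · have := (mem_roots'.mp hb).2
      rw [hχ] at this
      exact this
  have haχ : a ∈ χ.roots := by
    rw [mem_roots hm.ne_zero, hχ]
    exact ha
  have ha0 := (hroot a haχ).1
  obtain ⟨α, hα⟩ := hp.algebraic a ha
  -- ratios are roots of unity
  have hratio : ∀ b ∈ χ.roots, ∃ m : ℕ, 0 < m ∧ b ^ m = a ^ m := by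
    intro b hb
    obtain ⟨hb0, hbe⟩ := hroot b hb
    obtain ⟨β, hβ⟩ := hp.algebraic b hbe
    have hα0 : α ≠ 0 := by rintro rfl; exact ha0 (by rw [← hα, map_zero])
    have hβ0 : β ≠ 0 := by rintro rfl; exact hb0 (by rw [← hβ, map_zero])
    have hαe : IsEigenvalue ρ g (j α) := by rw [hα]; exact ha
    have hβe : IsEigenvalue ρ g (j β) := by rw [hβ]; exact hbe
    obtain ⟨m, hm0, hm1⟩ := Pool.Agent.N817.OP.root_of_unity (β / α) (div_ne_zero hβ0 hα0)
      (fun σ => by
        rw [map_div₀, norm_div]
        have h1 := hw α hαe σ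
        have h2 := hw β hβe σ
        have h3 : ‖σ β‖ = ‖σ α‖ := by
          have : ‖σ β‖ ^ 2 = ‖σ α‖ ^ 2 := h2.trans h1.symm
          exact (pow_left_inj₀ (norm_nonneg _) (norm_nonneg _) two_ne_zero).mp this
        rw [h3, div_self (norm_ne_zero_iff.mpr ((_root_.map_ne_zero σ).mpr hα0))])
      (fun r' _ τ => by
        rw [map_div₀, norm_div]
        by_cases hr : r' = r
        · subst hr
          have h3 : ‖τ β‖ = ‖τ α‖ := hs τ β α hβe hαe
          rw [h3, div_self (norm_ne_zero_iff.mpr ((_root_.map_ne_zero τ).mpr hα0))]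
        · rw [hp.unit β hβe r' hr τ, hp.unit α hαe r' hr τ, div_one])
    refine ⟨m, hm0, ?_⟩
    have h4 := congrArg j hm1
    rw [map_pow, map_div₀, hα, hβ, map_one, div_pow, div_eq_one_iff_eq (pow_ne_zero _ ha0)] at h4
    exact h4
  -- a common exponent
  have hcommon : ∀ s : Multiset (AlgebraicClosure F), (∀ b ∈ s, ∃ m : ℕ, 0 < m ∧ b ^ m = a ^ m) →
      ∃ m : ℕ, 0 < m ∧ s.prod ^ m = a ^ (Multiset.card s * m) := by
    intro s
    induction s using Multiset.induction with
    | empty => exact fun _ => ⟨1, one_pos, by simp⟩
    | cons b s ih =>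
      intro hb
      obtain ⟨m1, hm1, e1⟩ := hb b (Multiset.mem_cons_self b s)
      obtain ⟨m2, hm2, e2⟩ := ih fun c hc => hb c (Multiset.mem_cons_of_mem hc)
      refine ⟨m1 * m2, Nat.mul_pos hm1 hm2, ?_⟩
      rw [Multiset.prod_cons, Multiset.card_cons, mul_pow, pow_mul, e1, mul_comm m1 m2, pow_mul s.prod, e2,
        ← pow_mul, ← pow_mul, ← pow_add]
      congr 1
      ring
  obtain ⟨m, hm0, he⟩ := hcommon χ.roots hratio
  have hcard : Multiset.card χ.roots = n := by
    have h1 := (IsAlgClosed.splits χ).natDegree_eq_card_roots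
    rw [← h1, hchar, Matrix.charpoly_natDegree_eq_dim, Fintype.card_fin]
  refine ⟨m, hm0, ?_⟩
  rw [hcard] at he
  rw [← he, ← hdet, hdet']
  rfl

lemma continuous_det {K F : Type} [Field K] [NormedField F] {n : ℕ} (ρ : AbsGal K →* GL (Fin n) F)
    (hρ : Continuous ρ) : Continuous (Matrix.GeneralLinearGroup.det.comp ρ) := by
  rw [Units.continuous_iff]
  constructor
  · exact (Units.continuous_val.comp hρ).matrix_det
  · have h : Continuous fun g => ((ρ g)⁻¹ : GL (Fin n) F) := hρ.inv
    have h2 := (Units.continuous_val.comp h).matrix_det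
    refine h2.congr fun g => ?_
    have : (Matrix.GeneralLinearGroup.det (ρ g))⁻¹ = Matrix.GeneralLinearGroup.det ((ρ g)⁻¹) := by
      rw [map_inv]
    show Matrix.det (((ρ g)⁻¹ : GL (Fin n) F) : Matrix (Fin n) (Fin n) F) = _
    rw [MonoidHom.comp_apply, this]
    rfl

/-- **Supersingular primes.** Let `K` be a number field, `p` a prime number, `F` a complete extension of
`ℚ_p` with an absolute value which extends the `p`-adic one, and `ρ : G_K → GL_n(F)` a continuous
semisimple representation which is not potentially abelian.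

(1) For all continuous characters `ψ_1, ..., ψ_k : G_K → Fˣ` and `d > 0` the places `v` with a Frobenius
element `g` all of whose eigenvalues on `ρ` are, up to roots of unity, `d`-th roots of elements `ψ_i(g)`
have natural density zero.

(2) The supersingular places have natural density zero. -/
theorem result {K : Type} [Field K] [NumberField K] (p : ℕ) [Fact p.Prime] {F : Type}
    [NormedField F] [NormedAlgebra ℚ_[p] F] [CompleteSpace F] {n : ℕ}
    (ρ : AbsGal K →* GL (Fin n) F) (hρ : Continuous ρ) (hss : Semisimple ρ)
    (hna : ¬ PotentiallyAbelian ρ) :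
    (∀ (k : ℕ) (ψ : Fin k → (AbsGal K →* Fˣ)), (∀ i, Continuous (ψ i)) → ∀ d : ℕ, 0 < d →
      DensityZero {v : HeightOneSpectrum (𝓞 K) | ∃ g, IsFrobenius v g ∧ RootsOf ρ ψ d g}) ∧
    ∀ j : Qbar →+* AlgebraicClosure F,
      DensityZero {v : HeightOneSpectrum (𝓞 K) | Supersingular j ρ v} := by
  have h1 : ∀ (k : ℕ) (ψ : Fin k → (AbsGal K →* Fˣ)), (∀ i, Continuous (ψ i)) → ∀ d : ℕ, 0 < d →
      DensityZero {v : HeightOneSpectrum (𝓞 K) | ∃ g, IsFrobenius v g ∧ RootsOf ρ ψ d g} := by
    intro k ψ hψ d hd
    by_contra hcon
    obtain ⟨δ, hδ, hP⟩ := frequently_of_not _ hcon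
    obtain ⟨U, hU⟩ := Pool.Agent.N817.PL.Main.main p ((Units.coeHom _).comp ρ)
      (Units.continuous_val.comp hρ) hss (fun i => (Units.coeHom F).comp (ψ i))
      (fun i => Units.continuous_val.comp (hψ i)) hd _ δ hδ hP (fun v hv => hv)
    exact hna ⟨U.toSubgroup, U.isNormal', U.isOpen', fun u hu v hv => Units.ext (hU u hu v hv)⟩
  refine ⟨h1, fun j => ?_⟩
  rcases n.eq_zero_or_pos with rfl | hn
  · exfalso
    refine hna ⟨⊤, inferInstance, isOpen_univ, fun u _ v _ => ?_⟩
    exact Subsingleton.elim _ _
  have h2 := h1 1 (fun _ => Matrix.GeneralLinearGroup.det.comp ρ) (fun _ => continuous_det ρ hρ) n hn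
  have hsub : {v : HeightOneSpectrum (𝓞 K) | Supersingular j ρ v} ⊆
      {v | ∃ g, IsFrobenius v g ∧ RootsOf (k := 1) ρ
        (fun _ => Matrix.GeneralLinearGroup.det.comp ρ) n g} := by
    rintro v ⟨g, hg, r, hr, -, hp, hs⟩
    exact ⟨g, hg, roots_of_supersingular j ρ hp hs⟩
  refine squeeze_zero (fun x => by positivity) (fun x => ?_) h2
  refine div_le_div_of_nonneg_right ?_ (Nat.cast_nonneg _)
  refine Nat.cast_le.mpr (Set.ncard_le_ncard (Set.inter_subset_inter_right _ hsub) ?_)
  exact (finite_places K x).subset Set.inter_subset_left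

end Pool.Agent.Results.MP_0dad22_ag.SupersingularPrimes
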